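import Pool.Agent.H815.QC.Stm2

/-! QC-A5: word length and balls. -/

set_option autoImplicit false

namespace Pool.Agent.H935.QC.A5

open Pool.Agent.H815.QC

variable {n : ℕ} (rels : Set (FreeGroup (Fin n)))

/-- the value of a letter -/
def ltr (p : Fin n × Bool) : PresentedGroup rels :=
  cond p.2 (PresentedGroup.of p.1) (PresentedGroup.of p.1)⁻¹

theorem mk_list (L : List (Fin n × Bool)) :
    PresentedGroup.mk rels (FreeGroup.mk L) = (L.map (ltr rels)).prod := by
  have h : PresentedGroup.mk rels = FreeGroup.lift (PresentedGroup.of (rels := rels)) := by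
    apply FreeGroup.ext_hom
    intro a
    rw [FreeGroup.lift_apply_of]
    rfl
  rw [h, FreeGroup.lift_mk]
  rfl

theorem exists_letters (l : List (PresentedGroup rels))
    (h : ∀ x ∈ l, x ∈ Set.range (PresentedGroup.of (rels := rels)) ∨
      x⁻¹ ∈ Set.range (PresentedGroup.of (rels := rels))) :
    ∃ L : List (Fin n × Bool), L.length = l.length ∧ L.map (ltr rels) = l := by
  induction l with
  | nil => exact ⟨[], rfl, rfl⟩
  | cons x l ih =>
    obtain ⟨L, h1, h2⟩ := ih fun y hy => h y (List.mem_cons_of_mem _ hy)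
    rcases h x List.mem_cons_self with ⟨a, ha⟩ | ⟨a, ha⟩
    · refine ⟨(a, true) :: L, by rw [List.length_cons, List.length_cons, h1], ?_⟩
      rw [List.map_cons, h2]
      change PresentedGroup.of a :: l = x :: l
      rw [ha]
    · refine ⟨(a, false) :: L, by rw [List.length_cons, List.length_cons, h1], ?_⟩
      rw [List.map_cons, h2]
      change (PresentedGroup.of a)⁻¹ :: l = x :: l
      rw [ha, inv_inv]

theorem A5_proof : Pool.Agent.H815.QC.S_A5 := by
  intro n rels g N
  constructor
  · rintro ⟨w, rfl, hw⟩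
    refine ⟨w.toWord.map (ltr rels), by rw [List.length_map]; exact hw, ?_, ?_⟩
    · intro x hx
      obtain ⟨⟨a, b⟩, -, rfl⟩ := List.mem_map.1 hx
      cases b
      · right
        change ((PresentedGroup.of a)⁻¹)⁻¹ ∈ _
        rw [inv_inv]
        exact ⟨a, rfl⟩
      · left
        exact ⟨a, rfl⟩
    · rw [← mk_list, FreeGroup.mk_toWord]
  · rintro ⟨l, hl, hx, rfl⟩
    obtain ⟨L, h1, h2⟩ := exists_letters rels l hx
    refine ⟨FreeGroup.mk L, by rw [mk_list, h2], ?_⟩
    exact (FreeGroup.norm_mk_le (L₁ := L)).trans (by omega)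

end Pool.Agent.H935.QC.A5
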